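import Mathlib

set_option autoImplicit false

namespace Pool.Agent.W5h2.ER

open Finset

theorem sum_mu {r : ℕ} (hr : r ≠ 0) :
    (∑ e ∈ r.divisors, ((ArithmeticFunction.moebius e : ℤ) : ℂ) / (e : ℂ)) =
      ∏ p ∈ r.primeFactors, (1 - (p : ℂ)⁻¹) := by
  have h1 : ∀ n : ℕ, 0 < n → ∑ i ∈ n.divisors, ((i.totient : ℕ) : ℂ) = (n : ℂ) := by
    intro n _
    rw [← Nat.cast_sum, Nat.sum_totient]
  have h2 := (ArithmeticFunction.sum_eq_iff_sum_mul_moebius_eq (R := ℂ)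
    (f := fun i => ((i.totient : ℕ) : ℂ)) (g := fun n => (n : ℂ))).1 h1 r (Nat.pos_of_ne_zero hr)
  have hr' : (r : ℂ) ≠ 0 := Nat.cast_ne_zero.2 hr
  have h3 : (r : ℂ) * ∑ e ∈ r.divisors, ((ArithmeticFunction.moebius e : ℤ) : ℂ) / (e : ℂ) =
      ((r.totient : ℕ) : ℂ) := by
    rw [← h2, Finset.mul_sum]
    rw [Nat.sum_divisorsAntidiagonal (f := fun i j => ((ArithmeticFunction.moebius i : ℤ) : ℂ) *
      (j : ℂ))]
    refine Finset.sum_congr rfl fun e he => ?_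
    have hd := Nat.dvd_of_mem_divisors he
    have he0 : (e : ℂ) ≠ 0 := Nat.cast_ne_zero.2 (Nat.pos_of_mem_divisors he).ne'
    rw [Nat.cast_div hd he0]
    field_simp
  have h4 : ((r.totient : ℕ) : ℂ) = r * ∏ p ∈ r.primeFactors, (1 - (p : ℂ)⁻¹) := by
    have h5 := Nat.totient_eq_mul_prod_factors r
    have h6 := congrArg (fun q : ℚ => (q : ℂ)) h5
    push_cast at h6
    exact h6
  rw [h4] at h3
  exact mul_left_cancel₀ hr' h3

theorem lseries_two {r : ℕ} (hr : r ≠ 0) :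
    (∑' l : ℕ, (if Odd l ∧ Nat.Coprime l r then ((ArithmeticFunction.moebius l : ℤ) : ℂ) else 0) /
      (l : ℂ) ^ 2) * ((∏ p ∈ (2 * r).primeFactors, (1 - (p : ℂ) ^ (-(2 : ℂ)))) * riemannZeta 2) =
      1 := by
  have hN : NeZero (2 * r) := ⟨by omega⟩
  have h1 := DirichletCharacter.LSeries.mul_mu_eq_one (1 : DirichletCharacter ℂ (2 * r))
    (s := 2) (by norm_num)
  have h2 := DirichletCharacter.LFunction_eq_LSeries (1 : DirichletCharacter ℂ (2 * r))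
    (s := 2) (by norm_num)
  have h3 := DirichletCharacter.LFunctionTrivChar_eq_mul_riemannZeta (N := 2 * r) (s := 2)
    (by norm_num)
  have h3' : DirichletCharacter.LFunction (1 : DirichletCharacter ℂ (2 * r)) 2 =
      (∏ p ∈ (2 * r).primeFactors, (1 - (p : ℂ) ^ (-(2 : ℂ)))) * riemannZeta 2 := h3
  rw [← h2, h3'] at h1
  rw [mul_comm] at h1
  refine Eq.trans ?_ h1
  refine congrArg (fun z : ℂ => z * ((∏ p ∈ (2 * r).primeFactors, (1 - (p : ℂ) ^ (-(2 : ℂ)))) *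
    riemannZeta 2)) ?_
  unfold LSeries
  refine tsum_congr fun l => ?_
  rw [LSeries.term_def]
  by_cases hl : l = 0
  · simp [hl]
  rw [if_neg hl, Pi.mul_apply]
  have h4 : (l : ℂ) ^ (2 : ℂ) = (l : ℂ) ^ 2 := by
    rw [← Complex.cpow_ofNat]
  rw [h4]
  congr 1
  have h5 : IsUnit ((l : ℕ) : ZMod (2 * r)) ↔ Odd l ∧ Nat.Coprime l r := by
    rw [ZMod.isUnit_iff_coprime, Nat.coprime_mul_iff_right, Nat.coprime_two_right]
  by_cases h : Odd l ∧ Nat.Coprime l r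
  · rw [if_pos h, MulChar.one_apply (h5.2 h), one_mul]
  · rw [if_neg h, MulChar.map_nonunit _ (fun hu => h (h5.1 hu)), zero_mul]

theorem euler_r (r : ℕ) (hr : Odd r) :
    (∑' l : ℕ, (if Odd l ∧ Nat.Coprime l r then ((ArithmeticFunction.moebius l : ℤ) : ℂ) else 0) /
      (l : ℂ) ^ 2) *
    (∑ e ∈ r.divisors, ((ArithmeticFunction.moebius e : ℤ) : ℂ) / (e : ℂ)) =
    4 / (3 * riemannZeta 2) * ∏ p ∈ r.primeFactors, ((p : ℂ) / (p + 1)) := by
  have hr0 : r ≠ 0 := hr.pos.ne'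
  rw [sum_mu hr0]
  have h1 := lseries_two hr0
  set S := ∑' l : ℕ, (if Odd l ∧ Nat.Coprime l r then ((ArithmeticFunction.moebius l : ℤ) : ℂ)
    else 0) / (l : ℂ) ^ 2 with hS
  have h2 : (2 * r).primeFactors = insert 2 r.primeFactors := by
    rw [Nat.primeFactors_mul two_ne_zero hr0, Nat.prime_two.primeFactors]
    rfl
  have h3 : 2 ∉ r.primeFactors := by
    intro h
    have h4 := Nat.dvd_of_mem_primeFactors h
    exact (Nat.not_even_iff_odd.2 hr) (even_iff_two_dvd.2 h4)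
  rw [h2, Finset.prod_insert h3] at h1
  have h4 : ∀ p : ℕ, (p : ℂ) ^ (-(2 : ℂ)) = ((p : ℂ) ^ 2)⁻¹ := by
    intro p
    rw [Complex.cpow_neg, Complex.cpow_ofNat]
  simp only [h4] at h1
  have hz : riemannZeta 2 ≠ 0 := by
    intro h
    rw [h] at h1
    simp at h1
  have hp0 : ∀ p ∈ r.primeFactors, (p : ℂ) ≠ 0 ∧ (p : ℂ) - 1 ≠ 0 ∧ (p : ℂ) + 1 ≠ 0 := by
    intro p hp
    have h5 := (Nat.prime_of_mem_primeFactors hp).two_le
    refine ⟨Nat.cast_ne_zero.2 (by omega), ?_, ?_⟩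
    · rw [sub_ne_zero]
      intro h6
      have h7 : p = 1 := by exact_mod_cast h6
      omega
    · intro h6
      have h7 : ((p + 1 : ℕ) : ℂ) = 0 := by push_cast; exact h6
      have h8 := Nat.cast_eq_zero.1 h7
      omega
  have h5 : ∏ p ∈ r.primeFactors, (1 - (p : ℂ)⁻¹) =
      (∏ p ∈ r.primeFactors, (1 - ((p : ℂ) ^ 2)⁻¹)) *
        ∏ p ∈ r.primeFactors, ((p : ℂ) / (p + 1)) := by
    rw [← Finset.prod_mul_distrib]
    refine Finset.prod_congr rfl fun p hp => ?_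
    obtain ⟨h6, h7, h8⟩ := hp0 p hp
    field_simp
    ring
  rw [h5]
  set Q := ∏ p ∈ r.primeFactors, (1 - ((p : ℂ) ^ 2)⁻¹) with hQ
  set R := ∏ p ∈ r.primeFactors, ((p : ℂ) / (p + 1)) with hR
  have h6 : S * Q * (3 * riemannZeta 2) = 4 := by
    have h7 : (1 - (((2 : ℕ) : ℂ) ^ 2)⁻¹) = 3 / 4 := by norm_num
    rw [h7] at h1
    linear_combination 4 * h1
  have h8 : (3 * riemannZeta 2 : ℂ) ≠ 0 := mul_ne_zero (by norm_num) hz
  rw [← mul_assoc]
  congr 1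
  rw [eq_div_iff h8]
  exact h6

end Pool.Agent.W5h2.ER
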